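import Mathlib

/-!
# Counting lattice points in discs of radius `√49997`: kernel-friendly checkers

All functions here are plain functions on natural numbers, written so that the kernel evaluates
them quickly. Coordinates are scaled by `10000`.
-/

set_option autoImplicit false

namespace Pool.Agent.Helper13_Circles

/-- force the evaluation of a natural number in the kernel -/
noncomputable def frc {α : Type} (n : Nat) (k : Nat → α) : α :=
  @Nat.rec (fun _ => α) (k 0) (fun m _ => k (Nat.succ m)) n

theorem frc_eq {α : Type} (n : Nat) (k : Nat → α) : frc n k = k n := by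
  cases n <;> rfl

/-- digit number `j` of `L` in base `2^24` -/
def dig (L j : Nat) : Nat := Nat.mod (Nat.shiftRight L (Nat.mul 24 j)) 16777216

noncomputable def sumRows (a a' L : Nat) (k : Nat) : Nat :=
  @Nat.rec (fun _ => Nat) 0 (fun j ih => Nat.add ih
    (frc (dig L j) fun w => Nat.add (Nat.div (Nat.add w a) 10000)
      (Nat.div (Nat.add w a') 10000))) k

theorem sumRows_eq (a a' L k : Nat) :
    sumRows a a' L k = ∑ j ∈ Finset.range k, ((dig L j + a) / 10000 + (dig L j + a') / 10000) := by
  induction k with
  | zero => rfl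
  | succ k ih =>
    rw [Finset.sum_range_succ, ← ih]
    show Nat.add (sumRows a a' L k) (frc (dig L k) _) = _
    rw [frc_eq]
    rfl

noncomputable def valid (β L : Nat) (k : Nat) : Bool :=
  @Nat.rec (fun _ => Bool) true (fun j ih => cond (frc (dig L j) fun w =>
    cond (Nat.ble (Nat.add (Nat.mul w w) (Nat.pow (Nat.add (Nat.mul j 10000) β) 2))
      4999700000000) true (Nat.beq w 0)) ih false) k

theorem valid_spec (β L k : Nat) (h : valid β L k = true) :
    ∀ j < k, dig L j * dig L j + (j * 10000 + β) ^ 2 ≤ 4999700000000 ∨ dig L j = 0 := by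
  induction k with
  | zero => intro j hj; omega
  | succ k ih =>
    have h' : (cond (frc (dig L k) fun w =>
        cond (Nat.ble (Nat.add (Nat.mul w w) (Nat.pow (Nat.add (Nat.mul k 10000) β) 2))
          4999700000000) true (Nat.beq w 0)) (valid β L k) false) = true := h
    rw [frc_eq] at h'
    intro j hj
    rcases hc : (cond (Nat.ble (Nat.add (Nat.mul (dig L k) (dig L k))
        (Nat.pow (Nat.add (Nat.mul k 10000) β) 2)) 4999700000000) true
        (Nat.beq (dig L k) 0)) with _ | _
    · rw [hc] at h'; simp at h'
    · rw [hc] at h'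
      have h2 : valid β L k = true := h'
      rcases Nat.lt_succ_iff_lt_or_eq.mp hj with hlt | rfl
      · exact ih h2 j hlt
      · rcases hb : (Nat.ble (Nat.add (Nat.mul (dig L j) (dig L j))
            (Nat.pow (Nat.add (Nat.mul j 10000) β) 2)) 4999700000000) with _ | _
        · rw [hb] at hc
          right
          exact Nat.eq_of_beq_eq_true hc
        · left
          exact Nat.le_of_ble_eq_true hb

/-- Newton step -/
def nw (n g : Nat) : Nat := Nat.div (Nat.add g (Nat.div n g)) 2

def fin' (n g : Nat) : Nat := cond (Nat.ble (Nat.mul g g) n) g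
  (cond (Nat.ble (Nat.mul (Nat.sub g 1) (Nat.sub g 1)) n) (Nat.sub g 1) 0)

noncomputable def isq (n g : Nat) : Nat :=
  frc (nw n g) fun g => frc (nw n g) fun g => frc (nw n g) fun g => frc (nw n g) fun g =>
    frc (nw n g) fun g => frc (nw n g) fun g => fin' n g

noncomputable def mkAux (β : Nat) (k : Nat) : Nat → Nat → Nat :=
  @Nat.rec (fun _ => Nat → Nat → Nat) (fun _ _ => 0)
    (fun _ ih j g => frc (Nat.sub 4999700000000 (Nat.pow (Nat.add (Nat.mul j 10000) β) 2)) fun n =>
      frc (isq n g) fun w => frc (Nat.succ j) fun j' =>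
        Nat.add w (Nat.mul 16777216 (ih j' (Nat.succ w)))) k

/-- packed list of approximate half-widths -/
noncomputable def mk (β : Nat) : Nat := mkAux β 224 0 2300000

noncomputable def chain (LA LB stop : Nat) : Nat → List Nat → Bool
  | a, [] => Nat.beq a stop
  | a, e :: l => cond (Nat.ble 1 e) (cond (Nat.ble e 5000)
      (cond (Nat.ble 157050 (Nat.add (sumRows a (Nat.sub 10000 e) LA 224)
        (sumRows a (Nat.sub 10000 e) LB 224))) (chain LA LB stop e l) false) false) false

noncomputable def chk (b t a0 stop : Nat) (as : List Nat) : Bool :=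
  frc (mk (Nat.sub 10000 b)) fun LA => frc (mk (Nat.add b t)) fun LB =>
   cond (valid (Nat.sub 10000 b) LA 224)
    (cond (valid (Nat.add b t) LB 224) (chain LA LB stop a0 as) false) false

theorem cond_and {a b : Bool} (h : cond a b false = true) : a = true ∧ b = true := by
  cases a
  · simp at h
  · exact ⟨rfl, h⟩

theorem chk_spec (b t a0 stop : Nat) (as : List Nat) (h : chk b t a0 stop as = true) :
    ∃ LA LB, valid (10000 - b) LA 224 = true ∧ valid (b + t) LB 224 = true ∧
      chain LA LB stop a0 as = true := by
  unfold chk at h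
  rw [frc_eq, frc_eq] at h
  obtain ⟨h1, h⟩ := cond_and h
  obtain ⟨h2, h3⟩ := cond_and h
  exact ⟨_, _, h1, h2, h3⟩

theorem chain_cons {LA LB stop a e : Nat} {l : List Nat}
    (h : chain LA LB stop a (e :: l) = true) :
    1 ≤ e ∧ e ≤ 5000 ∧
    157050 ≤ sumRows a (10000 - e) LA 224 + sumRows a (10000 - e) LB 224 ∧
    chain LA LB stop e l = true := by
  unfold chain at h
  obtain ⟨h1, h⟩ := cond_and h
  obtain ⟨h2, h⟩ := cond_and h
  obtain ⟨h3, h4⟩ := cond_and h
  exact ⟨Nat.le_of_ble_eq_true h1, Nat.le_of_ble_eq_true h2, Nat.le_of_ble_eq_true h3, h4⟩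

/-- strips of heights `t`, each with its list of break points up to `5000` -/
noncomputable def strips : Nat → Nat → List (Nat × List Nat) → Bool
  | b, fin, [] => Nat.beq b fin
  | b, fin, (t, as) :: l => cond (chk b t b 5000 as) (strips (Nat.add b t) fin l) false

end Pool.Agent.Helper13_Circles
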