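import Pool.Agent.Helper13_Circles.Check

/-!
# Kernel checks, part 1
-/

set_option autoImplicit false
set_option maxRecDepth 100000

namespace Pool.Agent.Helper13_Circles

theorem run1 : strips 0 880
    [(80, [68, 216, 472, 671, 1208, 1871, 2265, 2676, 2984, 3474, 3974, 4396, 4799, 5000]),
     (80, [240, 449, 657, 1140, 1727, 2223, 2638, 3044, 3488, 3951, 4384, 4899, 5000]),
     (80, [382, 719, 1321, 1897, 2294, 2792, 3233, 3806, 4195, 4678, 5000]),
     (40, [363, 786, 1481, 2107, 2556, 2943, 3335, 3884, 4379, 4853, 5000]),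
     (40, [384, 795, 1557, 2125, 2577, 3043, 3577, 4074, 4565, 5000]),
     (80, [390, 544, 1102, 1710, 2201, 2712, 3117, 3591, 4054, 4506, 5000]),
     (80, [865, 1574, 2106, 2536, 2914, 3132, 3533, 3891, 4285, 4790, 5000]),
     (160, [1032, 1573, 1959, 2372, 2661, 2994, 3261, 3521, 3858, 4129, 4361, 4810, 5000]),
     (160, [1358, 1839, 2203, 2533, 2812, 2996, 3325, 3694, 3831, 4108, 4267, 4496, 4666, 4848, 5000]),
     (80, [1432, 1864, 2265, 2766, 3099, 3589, 4038, 4262, 4519, 4695, 4946, 5000])] = true := by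
  decide +kernel

end Pool.Agent.Helper13_Circles
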