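import Pool.Agent.Helper13_Circles.Check

/-!
# Kernel checks, part 2
-/

set_option autoImplicit false
set_option maxRecDepth 100000

namespace Pool.Agent.Helper13_Circles

theorem run2 : strips 880 1600
    [(80, [1435, 1875, 2203, 2714, 3021, 3466, 3843, 4116, 4412, 4566, 4874, 5000]),
     (160, [1543, 1861, 2153, 2505, 2876, 3186, 3409, 3694, 3921, 4114, 4340, 4528, 4777, 4934, 5000]),
     (160, [1573, 1902, 2249, 2674, 2879, 3183, 3451, 3705, 3909, 4081, 4372, 4565, 4727, 4960, 5000]),
     (80, [1705, 2324, 2798, 3150, 3441, 3702, 3934, 4030, 4277, 4586, 4689, 4861, 4970, 5000]),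
     (40, [1833, 2578, 3024, 3369, 3644, 3894, 4042, 4360, 4658, 4860, 4947, 5000]),
     (40, [1928, 2645, 3072, 3390, 3591, 3745, 3952, 4126, 4441, 4787, 4933, 4990, 5000]),
     (80, [1997, 2666, 3111, 3377, 3565, 3641, 3695, 3827, 3944, 4093, 4309, 4546, 4786, 4920, 4976, 5000]),
     (40, [2301, 2859, 3282, 3529, 3655, 3714, 3830, 4004, 4122, 4374, 4633, 4913, 5000]),
     (40, [2300, 2861, 3279, 3476, 3550, 3642, 3725, 3749, 3832, 4019, 4133, 4430, 4682, 4943, 5000])] = true := by
  decide +kernel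

end Pool.Agent.Helper13_Circles
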