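import Pool.Agent.Helper13_Circles.Check

/-!
# Kernel checks, part 3
-/

set_option autoImplicit false
set_option maxRecDepth 100000

namespace Pool.Agent.Helper13_Circles

theorem run3 : strips 1600 1997
    [(80, [2271, 2867, 3238, 3406, 3502, 3569, 3652, 3680, 3748, 3796, 3834, 3965, 4120, 4255, 4508, 4757, 4954, 5000]),
     (40, [2427, 2953, 3283, 3493, 3607, 3709, 3760, 3838, 3961, 4118, 4294, 4593, 4939, 5000]),
     (40, [2442, 2964, 3291, 3502, 3603, 3713, 3799, 3839, 3919, 4023, 4250, 4582, 4896, 5000]),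
     (80, [2360, 2872, 3238, 3451, 3468, 3482, 3614, 3685, 3754, 3899, 3937, 4043, 4211, 4502, 4865, 5000]),
     (40, [2487, 3000, 3358, 3458, 3664, 3837, 3945, 3991, 4143, 4262, 4617, 5000]),
     (40, [2541, 3110, 3389, 3601, 3820, 3944, 3980, 4128, 4263, 4502, 4843, 5000]),
     (77, [2506, 3069, 3353, 3521, 3717, 3872, 3996, 4005, 4071, 4126, 4216, 4281, 4409, 4697, 5000])] = true := by
  decide +kernel

end Pool.Agent.Helper13_Circles
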