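import Pool.Agent.Helper13_Circles.Check

/-!
# Kernel checks, part 4
-/

set_option autoImplicit false
set_option maxRecDepth 100000

namespace Pool.Agent.Helper13_Circles

theorem run4 : strips 2003 3040
    [(77, [2500, 3044, 3374, 3600, 3819, 3985, 4004, 4071, 4115, 4257, 4335, 4553, 4838, 5000]),
     (80, [2580, 3105, 3479, 3657, 3812, 3886, 3973, 3999, 4026, 4103, 4233, 4354, 4574, 4834, 5000]),
     (80, [2659, 3133, 3491, 3786, 3907, 4067, 4214, 4346, 4593, 4778, 5000]),
     (160, [2650, 3010, 3266, 3489, 3687, 3862, 3967, 4083, 4245, 4342, 4443, 4583, 4707, 4913, 5000]),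
     (80, [2949, 3326, 3558, 3803, 3903, 4085, 4285, 4489, 4663, 4905, 5000]),
     (80, [2924, 3299, 3606, 3891, 4047, 4287, 4490, 4660, 4800, 5000]),
     (160, [2971, 3273, 3471, 3701, 3857, 4024, 4176, 4390, 4460, 4528, 4659, 4818, 4884, 5000]),
     (160, [2975, 3321, 3632, 3860, 4033, 4071, 4296, 4464, 4662, 4844, 5000]),
     (80, [3232, 3544, 3838, 3995, 4149, 4438, 4785, 5000]),
     (80, [3329, 3595, 3801, 3951, 4064, 4249, 4633, 5000])] = true := by
  decide +kernel

end Pool.Agent.Helper13_Circles
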