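import Pool.Agent.Helper13_Circles.Check

/-!
# Kernel checks, part 5
-/

set_option autoImplicit false
set_option maxRecDepth 100000

namespace Pool.Agent.Helper13_Circles

theorem run5 : strips 3040 5000
    [(80, [3357, 3468, 3495, 3584, 3651, 3801, 3968, 4026, 4214, 4578, 4947, 5000]),
     (20, [3341, 3483, 3504, 3534, 3544, 3620, 3836, 4060, 4389, 4838, 5000]),
     (20, [3387, 3491, 3521, 3619, 3746, 3962, 4244, 4637, 5000]),
     (40, [3337, 3484, 3499, 3542, 3597, 3682, 3807, 4057, 4350, 4803, 5000]),
     (40, [3426, 3513, 3579, 3627, 3802, 4023, 4341, 4801, 5000]),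
     (40, [3430, 3532, 3616, 3745, 4030, 4319, 4682, 5000]),
     (80, [3452, 3556, 3654, 3889, 4111, 4446, 4864, 5000]),
     (160, [3456, 3579, 3656, 3871, 4051, 4253, 4492, 4794, 5000]),
     (160, [3690, 3918, 4169, 4371, 4692, 4973, 5000]),
     (160, [3905, 4101, 4282, 4561, 4892, 5000]),
     (160, [4049, 4324, 4594, 4941, 5000]),
     (160, [4339, 4623, 5000]),
     (160, [4648, 5000]),
     (160, [5000]),
     (160, [5000]),
     (160, [5000]),
     (160, [5000]),
     (40, [5000])] = true := by
  decide +kernel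

end Pool.Agent.Helper13_Circles
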