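import Pool.Agent.Helper13_Circles.Check

/-!
# Kernel checks, part E
-/

set_option autoImplicit false
set_option maxRecDepth 100000

namespace Pool.Agent.Helper13_Circles

theorem runE1997a : chk 1997 3 1997 3997 [2654, 3130, 3432, 3713, 3886, 3997] = true := by decide +kernel

theorem runE1997b : chk 1997 3 4003 5000 [4107, 4236, 4345, 4639, 5000] = true := by decide +kernel

theorem runE2000a : chk 2000 3 2000 3997 [2654, 3153, 3447, 3710, 3887, 3997] = true := by decide +kernel

theorem runE2000b : chk 2000 3 4003 5000 [4107, 4234, 4346, 4640, 5000] = true := by decide +kernel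


end Pool.Agent.Helper13_Circles
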