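import Pool.Agent.Helper13_Circles.Check
import Pool.Agent.Helper13_Circles.Run1
import Pool.Agent.Helper13_Circles.Run2
import Pool.Agent.Helper13_Circles.Run3
import Pool.Agent.Helper13_Circles.Run4
import Pool.Agent.Helper13_Circles.Run5
import Pool.Agent.Helper13_Circles.RunE

/-!
# Every closed disc of radius `√49997` contains at least 157050 lattice points
-/

set_option autoImplicit false
set_option linter.constructorNameAsVariable false

namespace Pool.Agent.Helper13_Circles

open Finset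

/-! ### Rows -/

/-- The finset made of the rows `j + 1` (points `-(p j) < u ≤ q j`) and `-j`. -/
noncomputable def rowSet (k k' : ℕ) (p q p' q' : ℕ → ℕ) : Finset (ℤ × ℤ) :=
  ((range k).sigma fun j => Ioc (-(p j : ℤ)) (q j)).image
      (fun s : (_ : ℕ) × ℤ => (s.2, (s.1 : ℤ) + 1)) ∪
  ((range k').sigma fun j => Ioc (-(p' j : ℤ)) (q' j)).image
      (fun s : (_ : ℕ) × ℤ => (s.2, -(s.1 : ℤ)))

theorem mem_rowSet (k k' : ℕ) (p q p' q' : ℕ → ℕ) (z : ℤ × ℤ) :
    z ∈ rowSet k k' p q p' q' ↔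
      (∃ j < k, z.2 = (j : ℤ) + 1 ∧ -(p j : ℤ) < z.1 ∧ z.1 ≤ q j) ∨
      (∃ j < k', z.2 = -(j : ℤ) ∧ -(p' j : ℤ) < z.1 ∧ z.1 ≤ q' j) := by
  obtain ⟨u, v⟩ := z
  simp only [rowSet, mem_union, mem_image, mem_sigma, mem_range, mem_Ioc, Sigma.exists,
    Prod.mk.injEq]
  constructor
  · rintro (⟨j, w, ⟨hj, h1, h2⟩, rfl, rfl⟩ | ⟨j, w, ⟨hj, h1, h2⟩, rfl, rfl⟩)
    · exact Or.inl ⟨j, hj, rfl, h1, h2⟩
    · exact Or.inr ⟨j, hj, rfl, h1, h2⟩
  · rintro (⟨j, hj, h0, h1, h2⟩ | ⟨j, hj, h0, h1, h2⟩)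
    · exact Or.inl ⟨j, u, ⟨hj, h1, h2⟩, rfl, h0.symm⟩
    · exact Or.inr ⟨j, u, ⟨hj, h1, h2⟩, rfl, h0.symm⟩

theorem card_rowSet (k k' : ℕ) (p q p' q' : ℕ → ℕ) :
    (rowSet k k' p q p' q').card =
      ∑ j ∈ range k, (q j + p j) + ∑ j ∈ range k', (q' j + p' j) := by
  unfold rowSet
  rw [card_union_of_disjoint, card_image_of_injective, card_image_of_injective, card_sigma,
    card_sigma]
  · congr 1
    · refine sum_congr rfl fun j _ => ?_
      rw [Int.card_Ioc]; omega
    · refine sum_congr rfl fun j _ => ?_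
      rw [Int.card_Ioc]; omega
  · rintro ⟨a, b⟩ ⟨c, d⟩ h
    simp only [Prod.mk.injEq, neg_inj, Nat.cast_inj] at h
    obtain ⟨rfl, rfl⟩ := h
    rfl
  · rintro ⟨a, b⟩ ⟨c, d⟩ h
    simp only [Prod.mk.injEq, add_left_inj, Nat.cast_inj] at h
    obtain ⟨rfl, rfl⟩ := h
    rfl
  · rw [disjoint_left]
    intro z h1 h2
    simp only [mem_image, mem_sigma, Sigma.exists] at h1 h2
    obtain ⟨j, w, -, rfl⟩ := h1
    obtain ⟨j', w', -, h⟩ := h2
    simp only [Prod.mk.injEq] at h
    omega

/-! ### The closed disc -/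

/-- Lattice points in the closed disc of radius `√49997` around `(x, y)`. -/
def cdisc (x y : ℝ) : Set (ℤ × ℤ) :=
  {z | ((z.1 : ℝ) - x) ^ 2 + ((z.2 : ℝ) - y) ^ 2 ≤ 49997}

theorem cdisc_finite (x y : ℝ) : (cdisc x y).Finite := by
  apply Set.Finite.subset (Set.finite_Icc ((⌊x⌋ - 300, ⌊y⌋ - 300) : ℤ × ℤ)
    (⌊x⌋ + 300, ⌊y⌋ + 300))
  rintro ⟨u, v⟩ h
  have h' : ((u : ℝ) - x) ^ 2 + ((v : ℝ) - y) ^ 2 ≤ 49997 := h
  have h1 : |(u : ℝ) - x| ≤ 224 := abs_le_of_sq_le_sq (by nlinarith [sq_nonneg ((v : ℝ) - y)])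
    (by norm_num)
  have h2 : |(v : ℝ) - y| ≤ 224 := abs_le_of_sq_le_sq (by nlinarith [sq_nonneg ((u : ℝ) - x)])
    (by norm_num)
  rw [abs_le] at h1 h2
  have fx := Int.floor_le x
  have fx' := Int.lt_floor_add_one x
  have fy := Int.floor_le y
  have fy' := Int.lt_floor_add_one y
  constructor
  · constructor
    · show ⌊x⌋ - 300 ≤ u
      have : ((⌊x⌋ - 300 : ℤ) : ℝ) ≤ (u : ℝ) := by push_cast; linarith
      exact_mod_cast this
    · show ⌊y⌋ - 300 ≤ v
      have : ((⌊y⌋ - 300 : ℤ) : ℝ) ≤ (v : ℝ) := by push_cast; linarith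
      exact_mod_cast this
  · constructor
    · show u ≤ ⌊x⌋ + 300
      have : (u : ℝ) ≤ ((⌊x⌋ + 300 : ℤ) : ℝ) := by push_cast; linarith
      exact_mod_cast this
    · show v ≤ ⌊y⌋ + 300
      have : (v : ℝ) ≤ ((⌊y⌋ + 300 : ℤ) : ℝ) := by push_cast; linarith
      exact_mod_cast this

theorem cast_bound (w j β : ℕ) (h : w * w + (j * 10000 + β) ^ 2 ≤ 4999700000000) :
    (w : ℝ) ^ 2 + ((j : ℝ) * 10000 + β) ^ 2 ≤ 4999700000000 := by
  have h1 : ((w * w + (j * 10000 + β) ^ 2 : ℕ) : ℝ) ≤ ((4999700000000 : ℕ) : ℝ) :=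
    Nat.cast_le.mpr h
  push_cast at h1
  nlinarith

theorem scale_bound (u v x y : ℝ)
    (h : (10000 * u - 10000 * x) ^ 2 + (10000 * v - 10000 * y) ^ 2 ≤ 4999700000000) :
    (u - x) ^ 2 + (v - y) ^ 2 ≤ 49997 := by
  have e : (10000 * u - 10000 * x) ^ 2 + (10000 * v - 10000 * y) ^ 2 =
    100000000 * ((u - x) ^ 2 + (v - y) ^ 2) := by ring
  rw [e] at h
  linarith

theorem horiz (w a e : ℕ) (u : ℤ) (x : ℝ) (ha : a ≤ 5000) (he1 : 1 ≤ e) (he : e ≤ 5000)
    (hx1 : (a : ℝ) ≤ 10000 * x) (hx2 : 10000 * x ≤ e)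
    (h1 : -(((w + (10000 - e)) / 10000 : ℕ) : ℤ) < u)
    (h2 : u ≤ (((w + a) / 10000 : ℕ) : ℤ)) :
    w ≠ 0 ∧ (10000 * (u : ℝ) - 10000 * x) ^ 2 ≤ (w : ℝ) ^ 2 := by
  have heR : (e : ℝ) ≤ 5000 := by exact_mod_cast he
  have hw : w ≠ 0 := by
    rintro rfl
    have e1 : (0 + (10000 - e)) / 10000 = 0 := by
      apply Nat.div_eq_of_lt; omega
    have e2 : (0 + a) / 10000 = 0 := by
      apply Nat.div_eq_of_lt; omega
    rw [e1] at h1
    rw [e2] at h2
    simp at h1 h2
    omega
  refine ⟨hw, ?_⟩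
  rcases le_or_gt u 0 with hu | hu
  · -- left side
    have h3 : (10000 * (-u + 1) : ℤ) ≤ w + (10000 - e) := by omega
    have h4 : (10000 * (-(u : ℝ) + 1)) ≤ w + (10000 - e) := by
      have h4 : ((10000 * (-u + 1) : ℤ) : ℝ) ≤ ((w + (10000 - e) : ℤ) : ℝ) :=
        Int.cast_le.mpr h3
      simpa only [Int.cast_mul, Int.cast_add, Int.cast_neg, Int.cast_sub, Int.cast_one,
        Int.cast_natCast, Int.cast_ofNat] using h4
    have h5 : 0 ≤ 10000 * x - 10000 * (u : ℝ) := by
      have : (u : ℝ) ≤ 0 := by exact_mod_cast hu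
      have : (0 : ℝ) ≤ a := Nat.cast_nonneg a
      linarith
    have h6 : 10000 * x - 10000 * (u : ℝ) ≤ w := by linarith
    have : (10000 * (u : ℝ) - 10000 * x) ^ 2 = (10000 * x - 10000 * (u : ℝ)) ^ 2 := by ring
    rw [this]
    exact pow_le_pow_left₀ h5 h6 2
  · have h3 : (10000 * u : ℤ) ≤ w + a := by omega
    have h4 : 10000 * (u : ℝ) ≤ w + a := by exact_mod_cast h3
    have h5 : 0 ≤ 10000 * (u : ℝ) - 10000 * x := by
      have : (1 : ℝ) ≤ (u : ℝ) := by exact_mod_cast hu
      linarith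
    have h6 : 10000 * (u : ℝ) - 10000 * x ≤ w := by linarith
    exact pow_le_pow_left₀ h5 h6 2

/-- Cell bound. -/
theorem cell_bound (b t a e LA LB : ℕ) (hb : b + t ≤ 5000) (ha : a ≤ 5000) (he1 : 1 ≤ e)
    (he : e ≤ 5000)
    (hA : valid (10000 - b) LA 224 = true) (hB : valid (b + t) LB 224 = true)
    (hs : 157050 ≤ sumRows a (10000 - e) LA 224 + sumRows a (10000 - e) LB 224)
    (x y : ℝ) (hx1 : (a : ℝ) ≤ 10000 * x) (hx2 : 10000 * x ≤ e)
    (hy1 : (b : ℝ) ≤ 10000 * y) (hy2 : 10000 * y ≤ b + t) :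
    157050 ≤ (cdisc x y).ncard := by
  have hA' := valid_spec _ _ _ hA
  have hB' := valid_spec _ _ _ hB
  rw [sumRows_eq, sumRows_eq] at hs
  have hcard := card_rowSet 224 224 (fun j => (dig LA j + (10000 - e)) / 10000)
    (fun j => (dig LA j + a) / 10000) (fun j => (dig LB j + (10000 - e)) / 10000)
    (fun j => (dig LB j + a) / 10000)
  have heR : (e : ℝ) ≤ 5000 := by exact_mod_cast he
  have hbR : (b : ℝ) + t ≤ 5000 := by exact_mod_cast hb
  have hsub : (↑(rowSet 224 224 (fun j => (dig LA j + (10000 - e)) / 10000)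
      (fun j => (dig LA j + a) / 10000) (fun j => (dig LB j + (10000 - e)) / 10000)
      (fun j => (dig LB j + a) / 10000)) : Set (ℤ × ℤ)) ⊆ cdisc x y := by
    rintro ⟨u, v⟩ hz
    rw [Finset.mem_coe, mem_rowSet] at hz
    show ((u : ℝ) - x) ^ 2 + ((v : ℝ) - y) ^ 2 ≤ 49997
    apply scale_bound
    rcases hz with ⟨j, hj, hv, h1, h2⟩ | ⟨j, hj, hv, h1, h2⟩
    · obtain ⟨hw, hh⟩ := horiz _ _ _ _ _ ha he1 he hx1 hx2 h1 h2
      rcases hA' j hj with hd | hd
      · have hv' : (v : ℝ) = (j : ℝ) + 1 := by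
          have : v = (j : ℤ) + 1 := hv
          rw [this]; push_cast; ring
        have hd' := cast_bound _ _ _ hd
        rw [Nat.cast_sub (show b ≤ 10000 by omega)] at hd'
        have hjn : (0 : ℝ) ≤ j := Nat.cast_nonneg j
        have hv2 : (10000 * (v : ℝ) - 10000 * y) ^ 2 ≤
            ((j : ℝ) * 10000 + (((10000 : ℕ) : ℝ) - b)) ^ 2 := by
          rw [hv']
          push_cast
          apply pow_le_pow_left₀
          · linarith
          · linarith
        exact (add_le_add hh hv2).trans hd'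
      · exact absurd hd hw
    · obtain ⟨hw, hh⟩ := horiz _ _ _ _ _ ha he1 he hx1 hx2 h1 h2
      rcases hB' j hj with hd | hd
      · have hv' : (v : ℝ) = -(j : ℝ) := by
          have : v = -(j : ℤ) := hv
          rw [this]; push_cast; ring
        have hd' := cast_bound _ _ _ hd
        rw [Nat.cast_add] at hd'
        have hjn : (0 : ℝ) ≤ j := Nat.cast_nonneg j
        have hbn : (0 : ℝ) ≤ b := Nat.cast_nonneg b
        have hv2 : (10000 * (v : ℝ) - 10000 * y) ^ 2 ≤ ((j : ℝ) * 10000 + (b + t)) ^ 2 := by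
          rw [hv']
          have : (10000 * -(j : ℝ) - 10000 * y) ^ 2 = (10000 * (j : ℝ) + 10000 * y) ^ 2 := by ring
          rw [this]
          apply pow_le_pow_left₀
          · linarith
          · linarith
        exact (add_le_add hh hv2).trans hd'
      · exact absurd hd hw
  have hfin := Set.ncard_le_ncard hsub (cdisc_finite x y)
  rw [Set.ncard_coe_finset, hcard] at hfin
  exact hs.trans hfin

/-- Chain bound: the whole segment from `a` (excluded) to `stop`. -/
theorem chain_strict (b t LA LB stop : ℕ) (hb : b + t ≤ 5000)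
    (hA : valid (10000 - b) LA 224 = true) (hB : valid (b + t) LB 224 = true)
    (y : ℝ) (hy1 : (b : ℝ) ≤ 10000 * y) (hy2 : 10000 * y ≤ b + t) :
    ∀ (as : List ℕ) (a : ℕ), a ≤ 5000 → chain LA LB stop a as = true →
      ∀ x : ℝ, (a : ℝ) < 10000 * x → 10000 * x ≤ stop → 157050 ≤ (cdisc x y).ncard := by
  intro as
  induction as with
  | nil =>
    intro a ha h x hx1 hx2
    have : a = stop := Nat.eq_of_beq_eq_true h
    subst this
    linarith
  | cons e l ih =>
    intro a ha h x hx1 hx2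
    obtain ⟨h1, h2, h3, h4⟩ := chain_cons h
    rcases le_or_gt (10000 * x) (e : ℝ) with hle | hgt
    · exact cell_bound b t a e LA LB hb ha h1 h2 hA hB h3 x y hx1.le hle hy1 hy2
    · exact ih e h2 h4 x hgt hx2

theorem chk_bound (b t a stop : ℕ) (as : List ℕ) (hb : b + t ≤ 5000) (ha : a ≤ 5000)
    (has : a < stop) (h : chk b t a stop as = true)
    (x y : ℝ) (hy1 : (b : ℝ) ≤ 10000 * y) (hy2 : 10000 * y ≤ b + t)
    (hx1 : (a : ℝ) ≤ 10000 * x) (hx2 : 10000 * x ≤ stop) : 157050 ≤ (cdisc x y).ncard := by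
  obtain ⟨LA, LB, hA, hB, hc⟩ := chk_spec b t a stop as h
  cases as with
  | nil =>
    have : a = stop := Nat.eq_of_beq_eq_true hc
    omega
  | cons e l =>
    obtain ⟨h1, h2, h3, h4⟩ := chain_cons hc
    rcases le_or_gt (10000 * x) (e : ℝ) with hle | hgt
    · exact cell_bound b t a e LA LB hb ha h1 h2 hA hB h3 x y hx1 hle hy1 hy2
    · exact chain_strict b t LA LB stop hb hA hB y hy1 hy2 l e h2 h4 x hgt hx2

theorem strips_strict : ∀ (l : List (ℕ × List ℕ)) (b fin : ℕ), strips b fin l = true →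
    fin ≤ 5000 → ∀ x y : ℝ, (b : ℝ) < 10000 * y → 10000 * y ≤ fin → y ≤ x → 10000 * x ≤ 5000 →
      157050 ≤ (cdisc x y).ncard := by
  intro l
  induction l with
  | nil =>
    intro b fin h hf x y hy1 hy2 hyx hx
    have : b = fin := Nat.eq_of_beq_eq_true h
    subst this
    linarith
  | cons s l ih =>
    obtain ⟨t, as⟩ := s
    intro b fin h hf x y hy1 hy2 hyx hx
    unfold strips at h
    obtain ⟨h1, h2⟩ := cond_and h
    have hmono : ∀ (l : List (ℕ × List ℕ)) (b : ℕ), strips b fin l = true → b ≤ fin := by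
      intro l
      induction l with
      | nil => intro b h; exact (Nat.eq_of_beq_eq_true h).le
      | cons s l ih =>
        obtain ⟨t, as⟩ := s
        intro b h
        unfold strips at h
        have := ih _ (cond_and h).2
        have h3 : b + t ≤ fin := this
        omega
    have hbt : b + t ≤ fin := hmono l _ h2
    have hfR : (fin : ℝ) ≤ 5000 := by exact_mod_cast hf
    have hb5 : b < 5000 := by
      have : (b : ℝ) < 5000 := by linarith
      exact_mod_cast this
    rcases le_or_gt (10000 * y) ((b : ℝ) + t) with hle | hgt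
    · refine chk_bound b t b 5000 as (hbt.trans hf) hb5.le hb5 h1 x y hy1.le hle ?_ ?_
      · linarith
      · push_cast; linarith
    · refine ih (b + t) fin h2 hf x y ?_ hy2 hyx hx
      push_cast; exact hgt

theorem strips_closed (l : List (ℕ × List ℕ)) (b fin : ℕ) (h : strips b fin l = true)
    (hf : fin ≤ 5000) (hbf : b < fin) (x y : ℝ) (hy1 : (b : ℝ) ≤ 10000 * y)
    (hy2 : 10000 * y ≤ fin) (hyx : y ≤ x) (hx : 10000 * x ≤ 5000) :
    157050 ≤ (cdisc x y).ncard := by
  rcases hy1.lt_or_eq with hlt | heq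
  · exact strips_strict l b fin h hf x y hlt hy2 hyx hx
  · cases l with
    | nil =>
      have : b = fin := Nat.eq_of_beq_eq_true h
      omega
    | cons s l =>
      obtain ⟨t, as⟩ := s
      unfold strips at h
      obtain ⟨h1, h2⟩ := cond_and h
      have hmono : ∀ (l : List (ℕ × List ℕ)) (b : ℕ), strips b fin l = true → b ≤ fin := by
        intro l
        induction l with
        | nil => intro b h; exact (Nat.eq_of_beq_eq_true h).le
        | cons s l ih =>
          obtain ⟨t, as⟩ := s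
          intro b h
          unfold strips at h
          have := ih _ (cond_and h).2
          have h3 : b + t ≤ fin := this
          omega
      have hbt : b + t ≤ fin := hmono l _ h2
      refine chk_bound b t b 5000 as (hbt.trans hf) (by omega) (by omega) h1 x y hy1 ?_ ?_ ?_
      · rw [← heq]
        have : (0 : ℝ) ≤ t := Nat.cast_nonneg t
        linarith
      · linarith
      · push_cast; linarith

/-- The fundamental triangle outside the exceptional square. -/
theorem triangle_bound (x y : ℝ) (hy : 0 ≤ y) (hyx : y ≤ x) (hx : x ≤ 1 / 2)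
    (hE : ¬ (3997 ≤ 10000 * x ∧ 10000 * x ≤ 4003 ∧ 1997 ≤ 10000 * y ∧ 10000 * y ≤ 2003)) :
    157050 ≤ (cdisc x y).ncard := by
  have hx' : 10000 * x ≤ 5000 := by linarith
  rcases le_or_gt (10000 * y) 880 with h1 | h1
  · exact strips_closed _ _ _ run1 (by norm_num) (by norm_num) x y
      (by push_cast; linarith) (by push_cast; linarith) hyx hx'
  rcases le_or_gt (10000 * y) 1600 with h2 | h2
  · exact strips_closed _ _ _ run2 (by norm_num) (by norm_num) x y
      (by push_cast; linarith) (by push_cast; linarith) hyx hx'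
  rcases le_or_gt (10000 * y) 1997 with h3 | h3
  · exact strips_closed _ _ _ run3 (by norm_num) (by norm_num) x y
      (by push_cast; linarith) (by push_cast; linarith) hyx hx'
  rcases le_or_gt 2003 (10000 * y) with h4 | h4
  · rcases le_or_gt (10000 * y) 3040 with h5 | h5
    · exact strips_closed _ _ _ run4 (by norm_num) (by norm_num) x y
        (by push_cast; linarith) (by push_cast; linarith) hyx hx'
    · exact strips_closed _ _ _ run5 (by norm_num) (by norm_num) x y
        (by push_cast; linarith) (by push_cast; linarith) hyx hx'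
  -- exceptional strips
  have hx2 : 10000 * x < 3997 ∨ 4003 < 10000 * x := by
    by_contra hcon
    push Not at hcon
    exact hE ⟨hcon.1, hcon.2, h3.le, h4.le⟩
  rcases le_or_gt (10000 * y) 2000 with h5 | h5
  · rcases hx2 with hx2 | hx2
    · exact chk_bound _ _ _ _ _ (by norm_num) (by norm_num) (by norm_num) runE1997a x y
        (by push_cast; linarith) (by push_cast; linarith) (by push_cast; linarith)
        (by push_cast; linarith)
    · exact chk_bound _ _ _ _ _ (by norm_num) (by norm_num) (by norm_num) runE1997b x y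
        (by push_cast; linarith) (by push_cast; linarith) (by push_cast; linarith)
        (by push_cast; linarith)
  · rcases hx2 with hx2 | hx2
    · exact chk_bound _ _ _ _ _ (by norm_num) (by norm_num) (by norm_num) runE2000a x y
        (by push_cast; linarith) (by push_cast; linarith) (by push_cast; linarith)
        (by push_cast; linarith)
    · exact chk_bound _ _ _ _ _ (by norm_num) (by norm_num) (by norm_num) runE2000b x y
        (by push_cast; linarith) (by push_cast; linarith) (by push_cast; linarith)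
        (by push_cast; linarith)

end Pool.Agent.Helper13_Circles
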