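import Pool.Agent.Helper13_Circles.Core

/-!
# Exact counts of enclosed lattice points for the two circles
-/

set_option autoImplicit false
set_option maxRecDepth 100000
set_option linter.constructorNameAsVariable false

namespace Pool.Agent.Helper13_Circles

open Finset

noncomputable def sumE (p L : Nat) (k : Nat) : Nat :=
  @Nat.rec (fun _ => Nat) 0 (fun j ih => Nat.add ih
    (frc (dig L j) fun w => Nat.add (Nat.div (Nat.add w p) 5)
      (Nat.div (Nat.add w (Nat.sub 5 p)) 5))) k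

theorem sumE_eq (p L k : Nat) :
    sumE p L k = ∑ j ∈ Finset.range k, ((dig L j + p) / 5 + (dig L j + (5 - p)) / 5) := by
  induction k with
  | zero => rfl
  | succ k ih =>
    rw [Finset.sum_range_succ, ← ih]
    show Nat.add (sumE p L k) (frc (dig L k) _) = _
    rw [frc_eq]
    rfl

noncomputable def validE (β L : Nat) (k : Nat) : Bool :=
  @Nat.rec (fun _ => Bool) true (fun j ih => cond (frc (dig L j) fun w =>
    cond (Nat.ble (Nat.succ (Nat.add (Nat.mul w w) (Nat.pow (Nat.add (Nat.mul j 5) β) 2)))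
      1249925) (Nat.ble 1249925 (Nat.add (Nat.mul (Nat.succ w) (Nat.succ w))
        (Nat.pow (Nat.add (Nat.mul j 5) β) 2))) false) ih false) k

theorem validE_spec (β L k : Nat) (h : validE β L k = true) :
    ∀ j < k, dig L j * dig L j + (j * 5 + β) ^ 2 < 1249925 ∧
      1249925 ≤ (dig L j + 1) * (dig L j + 1) + (j * 5 + β) ^ 2 := by
  induction k with
  | zero => intro j hj; omega
  | succ k ih =>
    have h' : (cond (frc (dig L k) fun w =>
        cond (Nat.ble (Nat.succ (Nat.add (Nat.mul w w) (Nat.pow (Nat.add (Nat.mul k 5) β) 2)))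
        1249925) (Nat.ble 1249925 (Nat.add (Nat.mul (Nat.succ w) (Nat.succ w))
        (Nat.pow (Nat.add (Nat.mul k 5) β) 2))) false) (validE β L k) false) = true := h
    rw [frc_eq] at h'
    obtain ⟨h1, h2⟩ := cond_and h'
    obtain ⟨h3, h4⟩ := cond_and h1
    intro j hj
    rcases Nat.lt_succ_iff_lt_or_eq.mp hj with hlt | rfl
    · exact ih h2 j hlt
    · exact ⟨Nat.le_of_ble_eq_true h3, Nat.le_of_ble_eq_true h4⟩

noncomputable def mkAuxE (β : Nat) (k : Nat) : Nat → Nat → Nat :=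
  @Nat.rec (fun _ => Nat → Nat → Nat) (fun _ _ => 0)
    (fun _ ih j g => frc (Nat.sub 1249924 (Nat.pow (Nat.add (Nat.mul j 5) β) 2)) fun n =>
      frc (isq n g) fun w => frc (Nat.succ j) fun j' =>
        Nat.add w (Nat.mul 16777216 (ih j' (Nat.succ w)))) k

/-- complete check of the two quarter-counts -/
noncomputable def chkE (p q k k' N : Nat) : Bool :=
  frc (mkAuxE (Nat.sub 5 q) k 0 1200) fun LA => frc (mkAuxE q k' 0 1200) fun LB =>
    cond (validE (Nat.sub 5 q) LA k) (cond (validE q LB k')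
      (cond (Nat.ble 1249925 (Nat.pow (Nat.add (Nat.mul k 5) (Nat.sub 5 q)) 2))
        (cond (Nat.ble 1249925 (Nat.pow (Nat.add (Nat.mul k' 5) q) 2))
          (Nat.beq (Nat.add (sumE p LA k) (sumE p LB k')) N) false) false) false) false

theorem chkE_spec (p q k k' N : Nat) (h : chkE p q k k' N = true) :
    ∃ LA LB, validE (5 - q) LA k = true ∧ validE q LB k' = true ∧
      1249925 ≤ (k * 5 + (5 - q)) ^ 2 ∧ 1249925 ≤ (k' * 5 + q) ^ 2 ∧
      sumE p LA k + sumE p LB k' = N := by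
  unfold chkE at h
  rw [frc_eq, frc_eq] at h
  obtain ⟨h1, h⟩ := cond_and h
  obtain ⟨h2, h⟩ := cond_and h
  obtain ⟨h3, h⟩ := cond_and h
  obtain ⟨h4, h5⟩ := cond_and h
  exact ⟨_, _, h1, h2, Nat.le_of_ble_eq_true h3, Nat.le_of_ble_eq_true h4,
    Nat.eq_of_beq_eq_true h5⟩

theorem runX0 : chkE 0 0 223 224 157045 = true := by decide +kernel

theorem runX1 : chkE 2 1 223 224 157049 = true := by decide +kernel

/-- Lattice points strictly inside the circle of radius `√49997` around `(p/5, q/5)`. -/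
def inner (p q : ℕ) : Set (ℤ × ℤ) :=
  {z | (5 * z.1 - p) ^ 2 + (5 * z.2 - q) ^ 2 < (1249925 : ℤ)}

theorem sq_lt_aux {a b c D : ℤ} (ha : 0 ≤ a) (hab : a ≤ b) (h : b ^ 2 + c < D) :
    a ^ 2 + c < D := by nlinarith

theorem inner_eq (p q k k' N : ℕ) (hp : p ≤ 4) (hq : q ≤ 4) (h : chkE p q k k' N = true) :
    (inner p q).ncard = N := by
  obtain ⟨LA, LB, hA, hB, hk, hk', hs⟩ := chkE_spec p q k k' N h
  have hA' := validE_spec _ _ _ hA
  have hB' := validE_spec _ _ _ hB
  rw [sumE_eq, sumE_eq] at hs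
  have hcard := card_rowSet k k' (fun j => (dig LA j + (5 - p)) / 5)
    (fun j => (dig LA j + p) / 5) (fun j => (dig LB j + (5 - p)) / 5)
    (fun j => (dig LB j + p) / 5)
  have horizE : ∀ (w : ℕ) (u : ℤ), (-(((w + (5 - p)) / 5 : ℕ) : ℤ) < u ∧
      u ≤ (((w + p) / 5 : ℕ) : ℤ)) ↔ (-(w : ℤ) ≤ 5 * u - p ∧ 5 * u - p ≤ w) := by
    intro w u
    constructor
    · rintro ⟨h1, h2⟩; constructor <;> omega
    · rintro ⟨h1, h2⟩; constructor <;> omega
  have key : ∀ (w : ℕ) (u v : ℤ) (m : ℕ), (v = m ∨ v = -(m : ℤ)) →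
      w * w + m ^ 2 < 1249925 → 1249925 ≤ (w + 1) * (w + 1) + m ^ 2 →
      ((5 * u - p) ^ 2 + v ^ 2 < (1249925 : ℤ) ↔ (-(w : ℤ) ≤ 5 * u - p ∧ 5 * u - p ≤ w)) := by
    intro w u v m hv h1 h2
    have hv2 : v ^ 2 = (m : ℤ) ^ 2 := by rcases hv with rfl | rfl <;> ring
    have h1' : (w : ℤ) * w + (m : ℤ) ^ 2 < 1249925 := by exact_mod_cast h1
    have h2' : (1249925 : ℤ) ≤ (w + 1) * (w + 1) + (m : ℤ) ^ 2 := by exact_mod_cast h2
    rw [hv2]
    constructor
    · intro h3
      constructor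
      · by_contra hc
        push Not at hc
        have : (w : ℤ) + 1 ≤ -(5 * u - p) := by omega
        nlinarith
      · by_contra hc
        push Not at hc
        have : (w : ℤ) + 1 ≤ 5 * u - p := by omega
        nlinarith
    · rintro ⟨h3, h4⟩
      nlinarith
  have heq : inner p q = ↑(rowSet k k' (fun j => (dig LA j + (5 - p)) / 5)
      (fun j => (dig LA j + p) / 5) (fun j => (dig LB j + (5 - p)) / 5)
      (fun j => (dig LB j + p) / 5)) := by
    ext ⟨u, v⟩
    rw [Finset.mem_coe, mem_rowSet]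
    show (5 * u - p) ^ 2 + (5 * v - q) ^ 2 < (1249925 : ℤ) ↔ _
    constructor
    · intro hz
      rcases le_or_gt v 0 with hv | hv
      · right
        obtain ⟨j, hj⟩ : ∃ j : ℕ, v = -(j : ℤ) := ⟨v.natAbs, by omega⟩
        have hvj : 5 * v - q = -((j * 5 + q : ℕ) : ℤ) := by push_cast; omega
        have hjk : j < k' := by
          by_contra hc
          push Not at hc
          have h6 : (k' * 5 + q) ^ 2 ≤ (j * 5 + q) ^ 2 := Nat.pow_le_pow_left (by omega) 2
          have h7 : ((1249925 : ℕ) : ℤ) ≤ (((j * 5 + q) ^ 2 : ℕ) : ℤ) := by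
            exact_mod_cast hk'.trans h6
          rw [hvj, neg_sq] at hz
          push_cast at h7 hz
          nlinarith [sq_nonneg (5 * u - (p : ℤ))]
        refine ⟨j, hjk, hj, ?_⟩
        obtain ⟨h1, h2⟩ := hB' j hjk
        exact (horizE _ _).mpr ((key _ u (5 * v - q) _ (Or.inr hvj) h1 h2).mp hz)
      · left
        obtain ⟨j, hj⟩ : ∃ j : ℕ, v = (j : ℤ) + 1 := ⟨(v - 1).natAbs, by omega⟩
        have hvj : 5 * v - q = ((j * 5 + (5 - q) : ℕ) : ℤ) := by push_cast; omega
        have hjk : j < k := by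
          by_contra hc
          push Not at hc
          have h6 : (k * 5 + (5 - q)) ^ 2 ≤ (j * 5 + (5 - q)) ^ 2 :=
            Nat.pow_le_pow_left (by omega) 2
          have h7 : ((1249925 : ℕ) : ℤ) ≤ (((j * 5 + (5 - q)) ^ 2 : ℕ) : ℤ) := by
            exact_mod_cast hk.trans h6
          rw [hvj] at hz
          push_cast at h7 hz
          nlinarith [sq_nonneg (5 * u - (p : ℤ))]
        refine ⟨j, hjk, hj, ?_⟩
        obtain ⟨h1, h2⟩ := hA' j hjk
        exact (horizE _ _).mpr ((key _ u (5 * v - q) _ (Or.inl hvj) h1 h2).mp hz)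
    · rintro (⟨j, hj, hv, h12⟩ | ⟨j, hj, hv, h12⟩)
      · have hv' : v = (j : ℤ) + 1 := hv
        have hvj : 5 * v - q = ((j * 5 + (5 - q) : ℕ) : ℤ) := by push_cast; omega
        obtain ⟨h1, h2⟩ := hA' j hj
        exact (key _ u (5 * v - q) _ (Or.inl hvj) h1 h2).mpr ((horizE _ _).mp h12)
      · have hv' : v = -(j : ℤ) := hv
        have hvj : 5 * v - q = -((j * 5 + q : ℕ) : ℤ) := by push_cast; omega
        obtain ⟨h1, h2⟩ := hB' j hj
        exact (key _ u (5 * v - q) _ (Or.inr hvj) h1 h2).mpr ((horizE _ _).mp h12)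
  rw [heq, Set.ncard_coe_finset, hcard]
  exact hs

theorem inner_zero : (inner 0 0).ncard = 157045 := inner_eq _ _ _ _ _ (by norm_num) (by norm_num) runX0

theorem inner_one : (inner 2 1).ncard = 157049 := inner_eq _ _ _ _ _ (by norm_num) (by norm_num) runX1

end Pool.Agent.Helper13_Circles
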