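import Pool.Agent.Helper13_Circles.Exact

/-!
# Every closed disc of radius `√49997` contains at least 157050 lattice points
-/

set_option autoImplicit false

namespace Pool.Agent.Helper13_Circles

open Finset

/-! ### The exceptional square -/

theorem sq_le_pos (d : ℝ) (h0 : 0 ≤ d) (h : d ≤ 3 / 10000) : d ^ 2 ≤ 3 / 10000 * d := by
  rw [sq]; exact mul_le_mul_of_nonneg_right h h0

theorem sq_le_neg (d : ℝ) (h0 : d ≤ 0) (h : -(3 / 10000) ≤ d) : d ^ 2 ≤ -(3 / 10000 * d) := by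
  have := sq_le_pos (-d) (by linarith) (by linarith)
  rw [neg_sq] at this
  linarith

theorem boundary_aux (d f : ℝ) (hd1 : -(3 / 10000) ≤ d) (hd2 : d ≤ 3 / 10000)
    (hf1 : -(3 / 10000) ≤ f) (hf2 : f ≤ 3 / 10000)
    (k1 : 2236 / 5 * d - 2 / 5 * f < d ^ 2 + f ^ 2)
    (k2 : -(1564 / 5) * d + 1598 / 5 * f < d ^ 2 + f ^ 2)
    (k3 : -(1054 / 5) * d - 1972 / 5 * f < d ^ 2 + f ^ 2) : False := by
  rcases le_total 0 d with hd0 | hd0 <;> rcases le_total 0 f with hf0 | hf0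
  · have s1 := sq_le_pos d hd0 hd2
    have s2 := sq_le_pos f hf0 hf2
    linarith
  · have s1 := sq_le_pos d hd0 hd2
    have s2 := sq_le_neg f hf0 hf1
    linarith
  · have s1 := sq_le_neg d hd0 hd1
    have s2 := sq_le_pos f hf0 hf2
    linarith
  · have s1 := sq_le_neg d hd0 hd1
    have s2 := sq_le_neg f hf0 hf1
    linarith

theorem exceptional_bound (x y : ℝ) (hx1 : 3997 ≤ 10000 * x) (hx2 : 10000 * x ≤ 4003)
    (hy1 : 1997 ≤ 10000 * y) (hy2 : 10000 * y ≤ 2003) : 157050 ≤ (cdisc x y).ncard := by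
  obtain ⟨d, hd⟩ : ∃ d, x = 2 / 5 + d := ⟨x - 2 / 5, by ring⟩
  obtain ⟨f, hf⟩ : ∃ f, y = 1 / 5 + f := ⟨y - 1 / 5, by ring⟩
  subst hd; subst hf
  have hd1 : -(3 / 10000) ≤ d := by linarith
  have hd2 : d ≤ 3 / 10000 := by linarith
  have hf1 : -(3 / 10000) ≤ f := by linarith
  have hf2 : f ≤ 3 / 10000 := by linarith
  have hdd : d ^ 2 ≤ (3 / 10000) ^ 2 := by nlinarith
  have hff : f ^ 2 ≤ (3 / 10000) ^ 2 := by nlinarith
  -- all inner points stay inside
  have hin : inner 2 1 ⊆ cdisc (2 / 5 + d) (1 / 5 + f) := by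
    rintro ⟨u, v⟩ hz
    have hz' : (5 * u - 2) ^ 2 + (5 * v - 1) ^ 2 < (1249925 : ℤ) := by
      have := hz
      simpa [inner] using this
    have hz2 : (5 * u - 2) ^ 2 + (5 * v - 1) ^ 2 ≤ (1249920 : ℤ) := by
      have h5 : ∃ m : ℤ, (5 * u - 2) ^ 2 + (5 * v - 1) ^ 2 = 5 * m :=
        ⟨5 * u ^ 2 - 4 * u + 5 * v ^ 2 - 2 * v + 1, by ring⟩
      obtain ⟨m, hm⟩ := h5
      omega
    have hz3 : (5 * (u : ℝ) - 2) ^ 2 + (5 * (v : ℝ) - 1) ^ 2 ≤ 1249920 := by exact_mod_cast hz2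
    show ((u : ℝ) - (2 / 5 + d)) ^ 2 + ((v : ℝ) - (1 / 5 + f)) ^ 2 ≤ 49997
    set a := 5 * (u : ℝ) - 2 with ha
    set b := 5 * (v : ℝ) - 1 with hb
    have e1 : ((u : ℝ) - (2 / 5 + d)) ^ 2 + ((v : ℝ) - (1 / 5 + f)) ^ 2 =
      (a ^ 2 + b ^ 2) / 25 - 2 / 5 * (a * d + b * f) + (d ^ 2 + f ^ 2) := by
      rw [ha, hb]; ring
    have hcs : (a * d + b * f) ^ 2 ≤ (a ^ 2 + b ^ 2) * (d ^ 2 + f ^ 2) := by
      nlinarith [sq_nonneg (a * f - b * d)]
    have hcs2 : (a * d + b * f) ^ 2 ≤ (481 / 1000) ^ 2 := by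
      have h1 : (a ^ 2 + b ^ 2) * (d ^ 2 + f ^ 2) ≤ 1249920 * (2 * (3 / 10000) ^ 2) := by
        apply mul_le_mul hz3 (by linarith) (by positivity) (by norm_num)
      have h2 : (1249920 : ℝ) * (2 * (3 / 10000) ^ 2) ≤ (481 / 1000) ^ 2 := by norm_num
      linarith
    have hab : -(481 / 1000) ≤ a * d + b * f := by
      have := abs_le_of_sq_le_sq hcs2 (by norm_num)
      exact (abs_le.mp this).1
    rw [e1]
    have : d ^ 2 + f ^ 2 ≤ 2 * (3 / 10000) ^ 2 := by linarith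
    norm_num at this
    linarith
  -- one of three boundary points is inside
  have hbd : ∃ z : ℤ × ℤ, z ∉ inner 2 1 ∧ z ∈ cdisc (2 / 5 + d) (1 / 5 + f) := by
    by_contra hcon
    push Not at hcon
    have n1 : ((224 : ℤ), (0 : ℤ)) ∉ inner 2 1 := by simp [inner]
    have n2 : ((-156 : ℤ), (160 : ℤ)) ∉ inner 2 1 := by simp [inner]
    have n3 : ((-105 : ℤ), (-197 : ℤ)) ∉ inner 2 1 := by simp [inner]
    have m1 := hcon _ n1
    have m2 := hcon _ n2
    have m3 := hcon _ n3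
    simp only [cdisc, Set.mem_ofPred_eq, not_le] at m1 m2 m3
    push_cast at m1 m2 m3
    have k1 : 2236 / 5 * d - 2 / 5 * f < d ^ 2 + f ^ 2 := by linarith
    have k2 : -(1564 / 5) * d + 1598 / 5 * f < d ^ 2 + f ^ 2 := by linarith
    have k3 : -(1054 / 5) * d - 1972 / 5 * f < d ^ 2 + f ^ 2 := by linarith
    exact boundary_aux d f hd1 hd2 hf1 hf2 k1 k2 k3
  obtain ⟨z, hz1, hz2⟩ := hbd
  have hfin : (inner 2 1).Finite := (cdisc_finite _ _).subset hin
  have h1 : (insert z (inner 2 1)).ncard = 157050 := by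
    rw [Set.ncard_insert_of_notMem hz1 hfin, inner_one]
  rw [← h1]
  exact Set.ncard_le_ncard (Set.insert_subset hz2 hin) (cdisc_finite _ _)

/-! ### Symmetries -/

theorem ncard_equiv (e : ℤ × ℤ ≃ ℤ × ℤ) (S T : Set (ℤ × ℤ)) (h : ∀ z, z ∈ S ↔ e z ∈ T) :
    S.ncard = T.ncard := by
  have : T = e '' S := by
    ext w
    constructor
    · intro hw
      exact ⟨e.symm w, (h _).mpr (by simpa using hw), by simp⟩
    · rintro ⟨z, hz, rfl⟩
      exact (h z).mp hz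
  rw [this, Set.ncard_image_of_injective _ e.injective]

theorem cdisc_shift (x y : ℝ) (i j : ℤ) :
    (cdisc x y).ncard = (cdisc (x - i) (y - j)).ncard := by
  refine ncard_equiv ((Equiv.subRight i).prodCongr (Equiv.subRight j)) _ _ ?_
  rintro ⟨u, v⟩
  simp only [cdisc, Set.mem_ofPred_eq, Equiv.prodCongr_apply, Prod.map, Equiv.subRight_apply,
    Int.cast_sub]
  have e1 : (u : ℝ) - i - (x - i) = u - x := by ring
  have e2 : (v : ℝ) - j - (y - j) = v - y := by ring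
  rw [e1, e2]

theorem cdisc_negx (x y : ℝ) : (cdisc x y).ncard = (cdisc (-x) y).ncard := by
  refine ncard_equiv ((Equiv.neg ℤ).prodCongr (Equiv.refl ℤ)) _ _ ?_
  rintro ⟨u, v⟩
  simp only [cdisc, Set.mem_ofPred_eq, Equiv.prodCongr_apply, Prod.map, Equiv.neg_apply,
    Equiv.refl_apply, Int.cast_neg]
  have e1 : (-(u : ℝ) - -x) ^ 2 = (u - x) ^ 2 := by ring
  rw [e1]

theorem cdisc_swap (x y : ℝ) : (cdisc x y).ncard = (cdisc y x).ncard := by
  refine ncard_equiv (Equiv.prodComm ℤ ℤ) _ _ ?_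
  rintro ⟨u, v⟩
  simp only [cdisc, Set.mem_ofPred_eq, Equiv.prodComm_apply, Prod.swap]
  rw [add_comm]

theorem cdisc_negy (x y : ℝ) : (cdisc x y).ncard = (cdisc x (-y)).ncard := by
  rw [cdisc_swap, cdisc_negx, cdisc_swap]

theorem cdisc_absx (x y : ℝ) : (cdisc x y).ncard = (cdisc |x| y).ncard := by
  rcases abs_choice x with h | h
  · rw [h]
  · rw [h, ← cdisc_negx]

theorem cdisc_absy (x y : ℝ) : (cdisc x y).ncard = (cdisc x |y|).ncard := by
  rw [cdisc_swap, cdisc_absx, cdisc_swap]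

/-- **Core theorem.** Every closed disc of radius `√49997` contains at least `157050`
lattice points. -/
theorem core (x y : ℝ) : 157050 ≤ (cdisc x y).ncard := by
  rw [cdisc_shift x y (round x) (round y), cdisc_absx, cdisc_absy]
  have hx := abs_sub_round x
  have hy := abs_sub_round y
  have hx0 := abs_nonneg (x - round x)
  have hy0 := abs_nonneg (y - round y)
  generalize |x - (round x : ℝ)| = a at *
  generalize |y - (round y : ℝ)| = b at *
  have main : ∀ a b : ℝ, 0 ≤ b → b ≤ a → a ≤ 1 / 2 → 157050 ≤ (cdisc a b).ncard := by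
    intro a b hb hba ha
    by_cases hE : 3997 ≤ 10000 * a ∧ 10000 * a ≤ 4003 ∧ 1997 ≤ 10000 * b ∧ 10000 * b ≤ 2003
    · exact exceptional_bound a b hE.1 hE.2.1 hE.2.2.1 hE.2.2.2
    · exact triangle_bound a b hb hba ha hE
  rcases le_total b a with h | h
  · exact main a b hy0 h hx
  · rw [cdisc_swap]; exact main b a hx0 h hy

end Pool.Agent.Helper13_Circles
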